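import Mathlib
import Pool.Agent.R46.Dist
import Pool.Agent.R46.Geo

/-!
# The strong geodetic number of a Cartesian product can be smaller than that of a factor

`G` is the complete bipartite graph `K_{2,7}` with one pendant vertex attached to each of the two
vertices of degree seven, and `H = K₂`. We show `sg(G) ≥ 7` and `sg(G □ H) ≤ 6`.
-/

namespace Pool.Agent.Results.MP_8400ad_co.PendantK27

open SimpleGraph

/-- `S` is a strong geodetic set of `G`: one can choose, for every unordered pair of distinct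
vertices `x, y` of `S`, one geodesic between `x` and `y` (`P s(x, y)` is its vertex set), such that
every vertex of `G` lies on one of the chosen geodesics. -/
def IsStrongGeodetic {V : Type*} (G : SimpleGraph V) (S : Finset V) : Prop :=
  ∃ P : Sym2 V → Set V,
    (∀ x ∈ S, ∀ y ∈ S, x ≠ y →
      ∃ w : G.Walk x y, w.length = G.dist x y ∧ P s(x, y) = {v | v ∈ w.support}) ∧
    ∀ v : V, ∃ x ∈ S, ∃ y ∈ S, x ≠ y ∧ v ∈ P s(x, y)

/-- The strong geodetic number: the least size of a strong geodetic set. -/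
noncomputable def sg {V : Type*} (G : SimpleGraph V) : ℕ :=
  sInf {n | ∃ S : Finset V, IsStrongGeodetic G S ∧ S.card = n}

/-- A choice of geodesics extending a given one. -/
theorem exists_choice {V : Type*} {G : SimpleGraph V} (hG : G.Connected) {ι : Type*}
    (a b : ι → V) (w : ∀ i, G.Walk (a i) (b i)) (hw : ∀ i, (w i).length = G.dist (a i) (b i))
    (hinj : ∀ i j, s(a i, b i) = s(a j, b j) → i = j) :
    ∃ P : Sym2 V → Set V,
      (∀ x y, ∃ w : G.Walk x y, w.length = G.dist x y ∧ P s(x, y) = {v | v ∈ w.support}) ∧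
      ∀ i, P s(a i, b i) = {v | v ∈ (w i).support} := by
  have key : ∀ e : Sym2 V, ∃ A : Set V,
      (∀ x y, s(x, y) = e → ∃ w : G.Walk x y, w.length = G.dist x y ∧ A = {v | v ∈ w.support}) ∧
      ∀ i, s(a i, b i) = e → A = {v | v ∈ (w i).support} := by
    intro e
    by_cases h : ∃ i, s(a i, b i) = e
    · obtain ⟨i, rfl⟩ := h
      refine ⟨{v | v ∈ (w i).support}, ?_, ?_⟩
      · intro x y hxy
        rw [Sym2.eq_iff] at hxy
        rcases hxy with ⟨rfl, rfl⟩ | ⟨rfl, rfl⟩
        · exact ⟨w i, hw i, rfl⟩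
        · refine ⟨(w i).reverse, ?_, ?_⟩
          · rw [Walk.length_reverse, hw i, SimpleGraph.dist_comm]
          · ext v; simp
      · intro j hj
        obtain rfl := hinj j i hj
        rfl
    · induction e with
      | _ x0 y0 =>
        obtain ⟨w0, hw0⟩ := hG.exists_walk_length_eq_dist x0 y0
        refine ⟨{v | v ∈ w0.support}, ?_, fun i hi => absurd ⟨i, hi⟩ h⟩
        intro x y hxy
        rw [Sym2.eq_iff] at hxy
        rcases hxy with ⟨rfl, rfl⟩ | ⟨rfl, rfl⟩
        · exact ⟨w0, hw0, rfl⟩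
        · refine ⟨w0.reverse, ?_, ?_⟩
          · rw [Walk.length_reverse, hw0, SimpleGraph.dist_comm]
          · ext v; simp
  choose P hP1 hP2 using key
  exact ⟨P, fun x y => hP1 _ x y rfl, fun i => hP2 _ i rfl⟩

/-- The edges of the first factor: `0` and `1` are the two vertices of large degree, `2` is
pendant at `0`, `3` is pendant at `1`, and `4, …, 10` are adjacent to both `0` and `1`. -/
def edges : List (ℕ × ℕ) :=
  [(0, 2), (1, 3), (0, 4), (0, 5), (0, 6), (0, 7), (0, 8), (0, 9), (0, 10),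
   (1, 4), (1, 5), (1, 6), (1, 7), (1, 8), (1, 9), (1, 10)]

/-- The first factor. -/
def Γ : SimpleGraph (Fin 11) where
  Adj a b := (a.val, b.val) ∈ edges ∨ (b.val, a.val) ∈ edges
  symm := ⟨fun _ _ h => h.symm⟩
  loopless := ⟨by decide⟩

instance : DecidableRel Γ.Adj := fun a b => by unfold Γ; infer_instance

/-- The distance table of the first factor. -/
def dL : List (List ℕ) :=
  [[0, 2, 1, 3, 1, 1, 1, 1, 1, 1, 1],
   [2, 0, 3, 1, 1, 1, 1, 1, 1, 1, 1],
   [1, 3, 0, 4, 2, 2, 2, 2, 2, 2, 2],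
   [3, 1, 4, 0, 2, 2, 2, 2, 2, 2, 2],
   [1, 1, 2, 2, 0, 2, 2, 2, 2, 2, 2],
   [1, 1, 2, 2, 2, 0, 2, 2, 2, 2, 2],
   [1, 1, 2, 2, 2, 2, 0, 2, 2, 2, 2],
   [1, 1, 2, 2, 2, 2, 2, 0, 2, 2, 2],
   [1, 1, 2, 2, 2, 2, 2, 2, 0, 2, 2],
   [1, 1, 2, 2, 2, 2, 2, 2, 2, 0, 2],
   [1, 1, 2, 2, 2, 2, 2, 2, 2, 2, 0]]

/-- Entry of the distance table. -/
def dd (u v : ℕ) : ℕ := (dL.getD u []).getD v 0

theorem dist_eq (u v : Fin 11) : Γ.dist u v = dd u.val v.val :=
  Pool.Agent.R46.dist_eq_of (d := fun v : Fin 11 => dd u.val v.val)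
    (by revert u; decide +kernel) (by revert u; decide +kernel) (by revert u; decide +kernel)
    (by revert u; decide +kernel) v

theorem connected : Γ.Connected :=
  Pool.Agent.R46.connected_of (u := (0 : Fin 11)) (d := fun v : Fin 11 => dd 0 v.val)
    (by decide +kernel) (by decide +kernel)

theorem fact_leaf2 : ∀ x y : Fin 11, dd x.val 2 + dd 2 y.val = dd x.val y.val → x = 2 ∨ y = 2 := by
  decide +kernel

theorem fact_leaf3 : ∀ x y : Fin 11, dd x.val 3 + dd 3 y.val = dd x.val y.val → x = 3 ∨ y = 3 := by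
  decide +kernel

theorem fact_mid : ∀ x y p : Fin 11, 4 ≤ p.val → x ≠ p → y ≠ p →
    dd x.val p.val + dd p.val y.val = dd x.val y.val →
    ((x = 0 ∨ x = 2) ∧ (y = 1 ∨ y = 3)) ∨ ((y = 0 ∨ y = 2) ∧ (x = 1 ∨ x = 3)) := by
  decide +kernel

theorem fact_same : ∀ x p q : Fin 11, x.val < 4 → 4 ≤ p.val → 4 ≤ q.val →
    dd x.val p.val = dd x.val q.val := by
  decide +kernel

theorem lower (S : Finset (Fin 11)) (hS : IsStrongGeodetic Γ S) : 7 ≤ S.card := by
  classical
  obtain ⟨P, hP, hcov⟩ := hS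
  have btw : ∀ v, ∃ x ∈ S, ∃ y ∈ S, x ≠ y ∧ v ∈ P s(x, y) ∧
      dd x.val v.val + dd v.val y.val = dd x.val y.val := by
    intro v
    obtain ⟨x, hx, y, hy, hxy, hv⟩ := hcov v
    obtain ⟨w, hw, hPw⟩ := hP x hx y hy hxy
    have hv' := hv
    rw [hPw] at hv'
    have := Pool.Agent.R46.geo_between hw hv'
    rw [dist_eq, dist_eq, dist_eq] at this
    exact ⟨x, hx, y, hy, hxy, hv, this⟩
  have h2 : (2 : Fin 11) ∈ S := by
    obtain ⟨x, hx, y, hy, -, -, h⟩ := btw 2
    rcases fact_leaf2 x y h with rfl | rfl <;> assumption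
  have h3 : (3 : Fin 11) ∈ S := by
    obtain ⟨x, hx, y, hy, -, -, h⟩ := btw 3
    rcases fact_leaf3 x y h with rfl | rfl <;> assumption
  set M : Finset (Fin 11) := Finset.univ.filter (fun p => 4 ≤ p.val) with hM
  set A : Finset (Fin 11) := S ∩ {0, 2} with hA
  set B : Finset (Fin 11) := S ∩ {1, 3} with hB
  have hcardM : M.card = 7 := by decide +kernel
  -- every uncovered middle vertex uses a pair
  have hmid : ∀ p ∈ M \ S, ∃ ab ∈ A ×ˢ B, p ∈ P s(ab.1, ab.2) := by
    intro p hp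
    rw [Finset.mem_sdiff, hM, Finset.mem_filter] at hp
    obtain ⟨x, hx, y, hy, hxy, hv, h⟩ := btw p
    have hxp : x ≠ p := fun h => hp.2 (h ▸ hx)
    have hyp : y ≠ p := fun h => hp.2 (h ▸ hy)
    rcases fact_mid x y p hp.1.2 hxp hyp h with ⟨h4, h5⟩ | ⟨h4, h5⟩
    · refine ⟨(x, y), ?_, hv⟩
      rw [Finset.mem_product, hA, hB]
      simp only [Finset.mem_inter, Finset.mem_insert, Finset.mem_singleton]
      exact ⟨⟨hx, h4⟩, ⟨hy, h5⟩⟩
    · refine ⟨(y, x), ?_, by rwa [Sym2.eq_swap]⟩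
      rw [Finset.mem_product, hA, hB]
      simp only [Finset.mem_inter, Finset.mem_insert, Finset.mem_singleton]
      exact ⟨⟨hy, h4⟩, ⟨hx, h5⟩⟩
  choose! f hf1 hf2 using hmid
  have hinj : Set.InjOn f (M \ S : Finset (Fin 11)) := by
    intro p hp q hq hpq
    have hp' := hp
    have hq' := hq
    rw [Finset.mem_coe, Finset.mem_sdiff, hM, Finset.mem_filter] at hp' hq'
    have h4 := hf1 p hp
    rw [Finset.mem_product, hA, hB] at h4
    simp only [Finset.mem_inter, Finset.mem_insert, Finset.mem_singleton] at h4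
    obtain ⟨⟨ha, ha'⟩, ⟨hb, hb'⟩⟩ := h4
    have hab : (f p).1 ≠ (f p).2 := by
      intro h
      rw [← h] at hb'
      rcases ha' with h1 | h1 <;> rw [h1] at hb' <;> revert hb' <;> decide
    obtain ⟨w, hw, hPw⟩ := hP _ ha _ hb hab
    have e1 := hf2 p hp
    have e2 := hf2 q hq
    rw [← hpq, hPw] at e2
    rw [hPw] at e1
    apply Pool.Agent.R46.geo_unique hw e1 e2
    rw [dist_eq, dist_eq]
    apply fact_same _ _ _ _ hp'.1.2 hq'.1.2
    rcases ha' with h1 | h1 <;> rw [h1] <;> decide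
  have hc1 : (M \ S).card ≤ A.card * B.card := by
    rw [← Finset.card_product]
    exact Finset.card_le_card_of_injOn f (fun p hp => hf1 p hp) hinj
  have hc2 : (M \ S).card + (M ∩ S).card = 7 := by
    rw [← hcardM]
    exact Finset.card_sdiff_add_card_inter M S
  have hA2 : A.card ≤ 2 := by
    refine le_trans (Finset.card_le_card Finset.inter_subset_right) ?_
    decide
  have hB2 : B.card ≤ 2 := by
    refine le_trans (Finset.card_le_card Finset.inter_subset_right) ?_
    decide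
  have hA1 : 1 ≤ A.card := Finset.card_pos.2 ⟨2, by rw [hA]; simp [h2]⟩
  have hB1 : 1 ≤ B.card := Finset.card_pos.2 ⟨3, by rw [hB]; simp [h3]⟩
  have hsub : A ∪ B ∪ (M ∩ S) ⊆ S := by
    intro x hx
    simp only [hA, hB, Finset.mem_union, Finset.mem_inter] at hx
    tauto
  have hd1 : Disjoint A B := by
    rw [Finset.disjoint_left]
    intro x hx hx'
    simp only [hA, hB, Finset.mem_inter, Finset.mem_insert, Finset.mem_singleton] at hx hx'
    rcases hx.2 with h | h <;> rw [h] at hx' <;> revert hx' <;> simp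
  have hd2 : Disjoint (A ∪ B) (M ∩ S) := by
    rw [Finset.disjoint_left]
    intro x hx hx'
    simp only [hA, hB, hM, Finset.mem_union, Finset.mem_inter, Finset.mem_insert,
      Finset.mem_singleton, Finset.mem_filter] at hx hx'
    rcases hx with ⟨-, h | h⟩ | ⟨-, h | h⟩ <;> rw [h] at hx' <;> revert hx' <;> simp
  have hc3 : A.card + B.card + (M ∩ S).card ≤ S.card := by
    rw [← Finset.card_union_of_disjoint hd1, ← Finset.card_union_of_disjoint hd2]
    exact Finset.card_le_card hsub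
  interval_cases h : A.card <;> interval_cases h' : B.card <;> omega

theorem univ_strong {V : Type*} [Fintype V] [Nontrivial V] {G : SimpleGraph V}
    (hG : G.Connected) : IsStrongGeodetic G Finset.univ := by
  obtain ⟨P, hP, -⟩ := exists_choice hG (ι := Empty) (fun i => i.elim) (fun i => i.elim)
    (fun i => i.elim) (fun i => i.elim) (fun i => i.elim)
  refine ⟨P, fun x _ y _ _ => hP x y, fun v => ?_⟩
  obtain ⟨u, hu⟩ := exists_ne v
  refine ⟨v, Finset.mem_univ _, u, Finset.mem_univ _, hu.symm, ?_⟩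
  obtain ⟨w, -, hw⟩ := hP v u
  rw [hw]
  exact w.start_mem_support

theorem sg_lower : 7 ≤ sg Γ := by
  apply le_csInf
  · exact ⟨_, Finset.univ, univ_strong connected, rfl⟩
  · rintro n ⟨S, hS, rfl⟩
    exact lower S hS

/-- The chosen geodesics in the product. -/
def L : Fin 9 → List (Fin 11 × Fin 2) :=
  ![[(2, 0), (0, 0), (4, 0), (4, 1), (1, 1), (3, 1)],
    [(2, 0), (0, 0), (5, 0), (5, 1), (1, 1)],
    [(0, 0), (6, 0), (6, 1), (1, 1), (3, 1)],
    [(0, 0), (7, 0), (7, 1), (1, 1)],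
    [(2, 1), (0, 1), (8, 1), (8, 0), (1, 0), (3, 0)],
    [(2, 0), (0, 0), (9, 0), (1, 0), (3, 0)],
    [(0, 0), (10, 0), (1, 0), (3, 0)],
    [(2, 1), (0, 1), (9, 1), (1, 1), (3, 1)],
    [(2, 1), (0, 1), (10, 1), (1, 1)]]

/-- First vertices. -/
def sA : Fin 9 → Fin 11 × Fin 2 :=
  ![(2, 0), (2, 0), (0, 0), (0, 0), (2, 1), (2, 0), (0, 0), (2, 1), (2, 1)]

/-- Last vertices. -/
def sB : Fin 9 → Fin 11 × Fin 2 :=
  ![(3, 1), (1, 1), (3, 1), (1, 1), (3, 0), (3, 0), (3, 0), (3, 1), (1, 1)]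

/-- The strong geodetic set of the product. -/
def S6 : Finset (Fin 11 × Fin 2) := {(2, 0), (0, 0), (2, 1), (3, 1), (1, 1), (3, 0)}

/-- Adjacency in the product, as a decidable predicate. -/
def prodAdj (x y : Fin 11 × Fin 2) : Prop :=
  (Γ.Adj x.1 y.1 ∧ x.2 = y.2) ∨ (x.2 ≠ y.2 ∧ x.1 = y.1)

instance : DecidableRel prodAdj := fun x y => by unfold prodAdj; infer_instance

theorem upper : IsStrongGeodetic (Γ □ (⊤ : SimpleGraph (Fin 2))) S6 := by
  have hcon2 : (⊤ : SimpleGraph (Fin 2)).Connected := SimpleGraph.connected_top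
  have hcon : (Γ □ (⊤ : SimpleGraph (Fin 2))).Connected := connected.boxProd hcon2
  have hadj : ∀ x y, (Γ □ (⊤ : SimpleGraph (Fin 2))).Adj x y ↔ prodAdj x y := by
    intro x y
    rw [SimpleGraph.boxProd_adj]
    simp [prodAdj]
  have hchain : ∀ i, List.IsChain prodAdj (L i) := by decide +kernel
  have hw : ∀ i, ∃ w : (Γ □ (⊤ : SimpleGraph (Fin 2))).Walk (sA i) (sB i), w.support = L i := by
    intro i
    apply Pool.Agent.R46.walk_of_list
    · exact (hchain i).imp (fun x y h => (hadj x y).2 h)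
    · revert i; decide +kernel
    · revert i; decide +kernel
  choose w hw using hw
  have hlen : ∀ i, (w i).length = (Γ □ (⊤ : SimpleGraph (Fin 2))).dist (sA i) (sB i) := by
    intro i
    have h0 : ∀ i, (L i).length = dd (sA i).1.val (sB i).1.val +
        (if (sA i).2 = (sB i).2 then 0 else 1) + 1 := by
      decide +kernel
    have h1 : (w i).length + 1 = (L i).length := by rw [← hw, Walk.length_support]
    rw [Pool.Agent.R46.dist_boxProd connected hcon2, dist_eq, SimpleGraph.dist_top]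
    have h2 := h0 i
    omega
  obtain ⟨P, hP1, hP2⟩ := exists_choice hcon sA sB w hlen (by decide +kernel)
  refine ⟨P, fun x _ y _ _ => hP1 x y, fun v => ?_⟩
  have hmem : ∀ i, sA i ∈ S6 ∧ sB i ∈ S6 ∧ sA i ≠ sB i := by decide +kernel
  have hcov : ∀ v, ∃ i, v ∈ L i := by decide +kernel
  obtain ⟨i, hi⟩ := hcov v
  refine ⟨sA i, (hmem i).1, sB i, (hmem i).2.1, (hmem i).2.2, ?_⟩
  rw [hP2, Set.mem_ofPred_eq, hw]
  exact hi

/-- **Main result.** There are finite connected graphs `G` and `H` with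
`sg (G □ H) < sg G`. -/
theorem result : ∃ (G : SimpleGraph (Fin 11)) (H : SimpleGraph (Fin 2)),
    G.Connected ∧ H.Connected ∧ sg (G □ H) < sg G := by
  refine ⟨Γ, ⊤, connected, SimpleGraph.connected_top, ?_⟩
  have h1 : sg (Γ □ (⊤ : SimpleGraph (Fin 2))) ≤ 6 := Nat.sInf_le ⟨S6, upper, by decide⟩
  have h2 := sg_lower
  omega

end Pool.Agent.Results.MP_8400ad_co.PendantK27
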